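import Pool.Agent.PCF.BalEven90

/-! # Proper conflict-free colouring of balanced bipartite graphs -/

set_option autoImplicit false

namespace Pool.Agent.Results.MP_f0af69_co.BalancedBipartite

/-- `G` has a proper colouring with `n` colours in which every vertex with a neighbour has a colour
occurring exactly once among its neighbours. -/
def HasPCF {V : Type} [Fintype V] (G : SimpleGraph V) [DecidableRel G.Adj] (n : ℕ) : Prop :=
  ∃ c : V → Fin n, (∀ u v, G.Adj u v → c u ≠ c v) ∧
    ∀ v, 0 < G.degree v → ∃ k, (Finset.filter (fun w => c w = k) (G.neighborFinset v)).card = 1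

/-- No vertex of maximum degree in the set `S` has a common neighbour with a vertex of degree 2 or 3. -/
def Apart {V : Type} [Fintype V] (G : SimpleGraph V) [DecidableRel G.Adj] (S : Set V) : Prop :=
  ∀ v ∈ S, G.degree v = G.maxDegree → ∀ x w, G.Adj v x → G.Adj x w →
    G.degree w ≠ 2 ∧ G.degree w ≠ 3

/-- Let `G` be a finite bipartite graph with sides `A` and its complement, without induced cycles of
length `n ≥ 6`, `n = 2 mod 4`. Then `G` has such a colouring with `Δ + 1` colours if the maximum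
degree `Δ` is odd, or if on one of the two sides no vertex of degree `Δ` has a common neighbour with a
vertex of degree 2 or 3. In all cases, if the degrees on the two sides are at most `d1` and `d2`, then
`⌊d1/2⌋ + ⌊d2/2⌋ + 2` colours suffice. -/
theorem result {V : Type} [Fintype V] [DecidableEq V] (G : SimpleGraph V) [DecidableRel G.Adj]
    (A : Set V) (hA : ∀ u v, G.Adj u v → (u ∈ A ↔ v ∉ A))
    (hG : ∀ n : ℕ, 6 ≤ n → n % 4 = 2 → IsEmpty (SimpleGraph.cycleGraph n ↪g G)) :
    (Odd G.maxDegree ∨ Apart G A ∨ Apart G Aᶜ → HasPCF G (G.maxDegree + 1)) ∧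
    (∀ d1 d2 : ℕ, (∀ v ∈ A, G.degree v ≤ d1) → (∀ v, v ∉ A → G.degree v ≤ d2) →
      HasPCF G (d1 / 2 + d2 / 2 + 2)) := by
  have conv : ∀ n : ℕ, (∃ c : V → Fin n, (∀ u v, G.Adj u v → c u ≠ c v) ∧
      ∀ v, 0 < G.degree v → ∃ u, G.Adj v u ∧ ∀ w, G.Adj v w → c w = c u → w = u) →
      HasPCF G n := by
    rintro n ⟨c, hc1, hc2⟩
    refine ⟨c, hc1, fun v hv => ?_⟩
    obtain ⟨u, hu, hu'⟩ := hc2 v hv
    refine ⟨c u, ?_⟩
    rw [Finset.card_eq_one]
    refine ⟨u, ?_⟩
    ext w
    rw [Finset.mem_filter, SimpleGraph.mem_neighborFinset, Finset.mem_singleton]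
    constructor
    · rintro ⟨hw, hcw⟩
      exact hu' w hw hcw
    · rintro rfl
      exact ⟨hu, rfl⟩
  have key : ∀ d1 d2 : ℕ, (∀ v ∈ A, G.degree v ≤ d1) → (∀ v, v ∉ A → G.degree v ≤ d2) →
      HasPCF G (d1 / 2 + d2 / 2 + 2) := fun d1 d2 h1 h2 =>
    conv _ (PCF39.balanced39 G A hA hG d1 d2 h1 h2)
  have hA' : ∀ u v, G.Adj u v → (u ∈ Aᶜ ↔ v ∉ Aᶜ) := by
    intro u v huv
    have := hA u v huv
    simp only [Set.mem_compl_iff, not_not]
    tauto
  refine ⟨?_, key⟩
  rintro (h | h | h)
  · have h3 := key G.maxDegree G.maxDegree (fun v _ => G.degree_le_maxDegree v)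
      (fun v _ => G.degree_le_maxDegree v)
    have h4 : G.maxDegree / 2 + G.maxDegree / 2 + 2 = G.maxDegree + 1 := by
      have := Nat.odd_iff.mp h
      omega
    rw [h4] at h3
    exact h3
  · refine conv _ (PCF90.balanced_cond90 G Aᶜ hA' hG ?_)
    intro v hv hd x hx w hw
    have hv' : v ∈ A := by simpa using hv
    exact h v hv' hd x w hx hw
  · refine conv _ (PCF90.balanced_cond90 G A hA hG ?_)
    intro v hv hd x hx w hw
    exact h v hv hd x w hx hw

end Pool.Agent.Results.MP_f0af69_co.BalancedBipartite
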