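import Pool.Agent.H18.ChordalOrd18
import Pool.Agent.PCF.Loc39
import Pool.Agent.Helper71.PC71.Dual
import Pool.Agent.Helper71.PC71.Iso

/-!
# The `Δ+1` bound for proper conflict-free colouring: chordal, bridged and dually chordal graphs

Partial answer to Q1 of MP_f0af69_co: the bound holds for all chordal graphs, for all bridged
graphs, for all dually chordal graphs, and for all graphs with a witness ordering, also for list
colouring, where the list of `v` only has to be larger than the degrees of the neighbours of `v`.
-/

set_option autoImplicit false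

namespace Pool.Agent.Results.MP_f0af69_co.ChordalAndDuallyChordal

/-- `G` is chordal: every cycle of length at least four has a chord. -/
def Chordal {V : Type} (G : SimpleGraph V) : Prop :=
  ∀ (v : V) (c : G.Walk v v), c.IsCycle → 4 ≤ c.length →
    ∃ x ∈ c.support, ∃ y ∈ c.support, G.Adj x y ∧ s(x, y) ∉ c.edges

/-- `G` is bridged: it is connected and has no isometric cycle of length at least four, that is,
there are no `n ≥ 4` and vertices `c 0, …, c (n-1)` such that the distance in `G` of any two of
them is their distance on the cycle `c 0, …, c (n-1), c 0`. -/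
def Bridged {V : Type} (G : SimpleGraph V) : Prop :=
  G.Connected ∧ ∀ n : ℕ, 4 ≤ n → ∀ c : ℕ → V,
    ¬ ∀ i j : ℕ, i ≤ j → j < n → G.dist (c i) (c j) = min (j - i) (n - (j - i))

/-- `G` is dually chordal: it has a maximum neighbourhood ordering `pos`, that is, for every vertex
`v` the subgraph `H` induced by the vertices `w` with `pos v ≤ pos w` has a vertex `u` in `N_H[v]`
such that `N_H[w] ⊆ N_H[u]` for every `w` in `N_H[v]` (`u = v` is allowed). -/
def DuallyChordal {V : Type} (G : SimpleGraph V) : Prop :=
  ∃ pos : V → ℕ, Function.Injective pos ∧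
    ∀ v : V, ∃ u : V, pos v ≤ pos u ∧ (u = v ∨ G.Adj v u) ∧
      ∀ w : V, pos v ≤ pos w → (w = v ∨ G.Adj v w) →
        ∀ z : V, pos v ≤ pos z → (z = w ∨ G.Adj w z) → (z = u ∨ G.Adj u z)

/-- `G` has a witness ordering: an ordering `pos` of the vertices and, for every vertex `w` with a
neighbour, a neighbour `m w` such that every other neighbour of `w` is adjacent to `m w` or comes
after both `w` and `m w`; moreover, for every vertex `x` with an earlier neighbour there is a
neighbour `a` of `x` such that the earlier neighbours `w` of `x`, and those of their `m w` that come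
before `x`, lie in the closed neighbourhood of `a`. -/
def HasWitnessOrdering {V : Type} (G : SimpleGraph V) : Prop :=
  ∃ (pos : V → ℕ) (m : V → V), Function.Injective pos ∧
    (∀ w : V, (∃ y, G.Adj w y) → G.Adj w (m w) ∧
      ∀ y : V, G.Adj w y → y ≠ m w → G.Adj y (m w) ∨ (pos w < pos y ∧ pos (m w) < pos y)) ∧
    ∀ x : V, (∃ w, G.Adj x w ∧ pos w < pos x) → ∃ a : V, G.Adj x a ∧
      ∀ w : V, G.Adj x w → pos w < pos x →
        (w = a ∨ G.Adj a w) ∧ (pos (m w) < pos x → m w = a ∨ G.Adj a (m w))

/-- Let `G` be a finite graph that is chordal, or bridged, or dually chordal, or has a witness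
ordering, and let every vertex `v` have a non-empty list of colours which is larger than the
degree of every neighbour of `v` (for instance at least `Δ+1` colours). Then `G` has a proper
colouring from these lists in which every non-isolated vertex has a colour occurring exactly once
among its neighbours. -/
theorem result (V : Type) [Fintype V] [DecidableEq V] (G : SimpleGraph V) [DecidableRel G.Adj]
    (hG : Chordal G ∨ Bridged G ∨ DuallyChordal G ∨ HasWitnessOrdering G)
    (α : Type) [DecidableEq α] (L : V → Finset α)
    (hL1 : ∀ v : V, (L v).Nonempty)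
    (hL2 : ∀ v u : V, G.Adj v u → G.degree u < (L v).card) :
    ∃ c : V → α,
      (∀ v : V, c v ∈ L v) ∧
      (∀ u v : V, G.Adj u v → c u ≠ c v) ∧
      ∀ v : V, 0 < G.degree v →
        ∃ k : α, (Finset.filter (fun w => c w = k) (G.neighborFinset v)).card = 1 := by
  rcases hG with h | h | h | h
  · exact Pool.Agent.H18.Chordal.chordal_list h L hL1 hL2
  · exact Pool.Agent.Helper71.PC71.bridged_iso71 G L hL1 hL2 h.1 h.2
  · exact Pool.Agent.Helper71.PC71.dually_chordal71 G L hL1 hL2 h
  · obtain ⟨pos, m, h1, h2, h3⟩ := h
    exact PCF39.ordering39 G L hL1 hL2 pos h1 m h2 h3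

end Pool.Agent.Results.MP_f0af69_co.ChordalAndDuallyChordal
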