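import Pool.Agent.Helper45.PcfJ45

/-!
# The `Δ+1` bound for proper conflict-free colouring: graphs with a dominating edge

Partial answer to Q1 of MP_f0af69_co: the bound holds for every graph with `Δ ≥ 3` which has an
edge `ab` such that every vertex is adjacent to `a` or to `b`; equivalently, for every graph whose
complement is disconnected or has diameter at least three. In particular for all joins.
-/

set_option autoImplicit false

namespace Pool.Agent.Results.MP_f0af69_co.DominatingEdge

/-- Every finite graph `G` with maximum degree `Δ ≥ 3` whose complement has two vertices at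
distance at least three (the distance is infinite if they lie in different components of the
complement) has a proper colouring with `Δ+1` colours in which every vertex has a colour occurring
exactly once among its neighbours. -/
theorem result :
    ∀ (V : Type) [Fintype V] [DecidableEq V] (G : SimpleGraph V) [DecidableRel G.Adj],
      3 ≤ G.maxDegree →
      (∃ a b : V, 3 ≤ Gᶜ.edist a b) →
      ∃ c : V → Fin (G.maxDegree + 1),
        (∀ u v : V, G.Adj u v → c u ≠ c v) ∧
        ∀ v : V, ∃ k : Fin (G.maxDegree + 1),
            (Finset.filter (fun w => c w = k) (G.neighborFinset v)).card = 1 := by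
  intro V _ _ G _ h3 hab
  obtain ⟨a, b, hab⟩ := hab
  have hne : a ≠ b := by
    rintro rfl
    rw [SimpleGraph.edist_self] at hab
    exact absurd hab (by norm_num)
  have hadj : G.Adj a b := by
    by_contra hn
    have h1 : Gᶜ.Adj a b := by
      rw [SimpleGraph.compl_adj]; exact ⟨hne, hn⟩
    have h2 := SimpleGraph.edist_le h1.toWalk
    have h4 := hab.trans h2
    simp at h4
  have hdom : ∀ v, G.Adj v a ∨ G.Adj v b := by
    intro v
    by_contra hn
    push Not at hn
    have hva : v ≠ a := by
      rintro rfl
      exact hn.2 hadj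
    have hvb : v ≠ b := by
      rintro rfl
      exact hn.1 hadj.symm
    have h1 : Gᶜ.Adj a v := by
      rw [SimpleGraph.compl_adj]; exact ⟨hva.symm, fun h => hn.1 h.symm⟩
    have h2 : Gᶜ.Adj v b := by
      rw [SimpleGraph.compl_adj]; exact ⟨hvb, hn.2⟩
    have h4 := SimpleGraph.edist_le (SimpleGraph.Walk.cons h1 (SimpleGraph.Walk.cons h2
      SimpleGraph.Walk.nil))
    have h5 := hab.trans h4
    simp at h5
    exact absurd h5 (by norm_num)
  obtain ⟨c, hc1, hc2, hc3⟩ := Pool.Agent.PcfJ45.dom_edge G rfl h3 hadj hdom
  refine ⟨fun v => ⟨c v, hc1 v⟩, fun u v huv h => hc2 u v huv (congrArg Fin.val h), fun v => ?_⟩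
  obtain ⟨u, hvu, hu⟩ := hc3 v
  refine ⟨⟨c u, hc1 u⟩, ?_⟩
  rw [Finset.card_eq_one]
  refine ⟨u, ?_⟩
  ext w
  rw [Finset.mem_filter, SimpleGraph.mem_neighborFinset, Finset.mem_singleton]
  constructor
  · rintro ⟨hw, hcw⟩
    exact hu w hw (congrArg Fin.val hcw)
  · rintro rfl
    exact ⟨hvu, rfl⟩

end Pool.Agent.Results.MP_f0af69_co.DominatingEdge
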