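import Pool.Agent.Helper14.Pcg.Final

/-!
# The `Δ+1` bound for proper conflict-free colouring: all graphs of large maximum degree

Partial answer to Q1 of MP_f0af69_co: the bound holds for every graph whose maximum degree is at
least an absolute constant.
-/

set_option autoImplicit false

namespace Pool.Agent.Results.MP_f0af69_co.LargeDegree

/-- There is a constant `D` such that every finite graph with maximum degree `Δ ≥ D` has a proper
colouring with `Δ+1` colours in which every non-isolated vertex has a colour occurring exactly
once among its neighbours. -/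
theorem result :
    ∃ D : ℕ, ∀ (V : Type) [Fintype V] [DecidableEq V] (G : SimpleGraph V) [DecidableRel G.Adj],
      D ≤ G.maxDegree →
      ∃ c : V → Fin (G.maxDegree + 1),
        (∀ u v : V, G.Adj u v → c u ≠ c v) ∧
        ∀ v : V, 0 < G.degree v →
          ∃ k : Fin (G.maxDegree + 1),
            (Finset.filter (fun w => c w = k) (G.neighborFinset v)).card = 1 := by
  obtain ⟨D, hD⟩ := Pool.Agent.Helper14.Pcg.exists_coloring_large
  refine ⟨D, fun V _ _ G _ h => ?_⟩
  obtain ⟨c, h1, h2⟩ := hD V G h
  refine ⟨c, h1, fun v hv => ?_⟩
  obtain ⟨k, hk⟩ := h2 v hv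
  have he : Finset.filter (fun w => c w = k) (G.neighborFinset v) =
      Finset.filter (fun w => c w = k) (Pool.Agent.Helper14.Pcg.nb G Finset.univ v) := by
    ext u
    simp [Pool.Agent.Helper14.Pcg.nb]
  exact ⟨k, he ▸ hk⟩

end Pool.Agent.Results.MP_f0af69_co.LargeDegree
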